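import Pool.Agent.MWI.StmtsT

/-!
# The letters `y` outside can be multiplied (row DBL of squad MWI)

Problem MP_23468a_al.
-/

set_option autoImplicit false

namespace Pool.Agent.MWI.H76

open Pool.Agent.Helper14_MV Pool.Agent.Helper2_MV Pool.Agent.MWF Pool.Agent.MWI

theorem fRep (a : ℕ) : (List.replicate a 0).filter ny = [] := by
  rw [List.filter_eq_nil_iff]
  intro c hc
  rw [List.eq_of_mem_replicate hc]
  simp [ny]

theorem fzz (L : List ℕ) : (zz L).filter ny = zz L := by
  rw [List.filter_eq_self]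
  intro c hc
  simp only [zz, List.mem_map] at hc
  obtain ⟨i, _, rfl⟩ := hc
  simp [ny]

theorem ny2 (i : ℕ) : ny (3 * i + 2) = true := by simp [ny]

theorem ny1 (i : ℕ) : ny (3 * i + 1) = true := by simp [ny]

theorem fpA (a b : ℕ → ℕ) (P : List ℕ) : (pA a b P).filter ny = pl P := by
  induction P with
  | nil => rfl
  | cons i P ih =>
    simp only [pA, pl, List.flatMap_cons] at ih ⊢
    rw [List.filter_append, ih, List.filter_append, fRep, List.filter_cons_of_pos (ny2 i),
      List.filter_append, fRep, List.filter_cons_of_pos (ny1 i)]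
    rfl

theorem fpC (a b : ℕ → ℕ) (Q : List ℕ) : (pC a b Q).filter ny = pr Q := by
  induction Q with
  | nil => rfl
  | cons i P ih =>
    simp only [pC, pr, List.flatMap_cons] at ih ⊢
    rw [List.filter_append, ih, List.filter_cons_of_pos (ny1 i), List.filter_append, fRep,
      List.filter_cons_of_pos (ny2 i), fRep]
    rfl

theorem pA0 (a b : ℕ → ℕ) (P : List ℕ) :
    pA (fun i => 0 * a i) (fun i => 0 * b i) P = pl P := by
  induction P with
  | nil => rfl
  | cons i P ih =>
    simp only [pA, pl, List.flatMap_cons] at ih ⊢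
    rw [ih]
    simp

theorem pC0 (a b : ℕ → ℕ) (Q : List ℕ) :
    pC (fun i => 0 * a i) (fun i => 0 * b i) Q = pr Q := by
  induction Q with
  | nil => rfl
  | cons i P ih =>
    simp only [pC, pr, List.flatMap_cons] at ih ⊢
    rw [ih]
    simp

theorem fpl (P : List ℕ) : (pl P).filter ny = pl P := by
  have h := fpA (fun i => 0 * i) (fun i => 0 * i) P
  rwa [pA0 (fun i => i) (fun i => i) P] at h

theorem fpr (Q : List ℕ) : (pr Q).filter ny = pr Q := by
  have h := fpC (fun i => 0 * i) (fun i => 0 * i) Q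
  rwa [pC0 (fun i => i) (fun i => i) Q] at h

theorem memA (a b : ℕ → ℕ) (P : List ℕ) : ∀ i ∈ P, 3 * i + 2 ∈ pA a b P := by
  intro i hi
  simp only [pA, List.mem_flatMap]
  exact ⟨i, hi, by simp⟩

theorem memC (a b : ℕ → ℕ) (Q : List ℕ) : ∀ i ∈ Q, 3 * i + 2 ∈ pC a b Q := by
  intro i hi
  simp only [pC, List.mem_flatMap]
  exact ⟨i, hi, by simp⟩

theorem ny0 (l : List ℕ) : (0 :: l).filter ny = l.filter ny := by
  rw [List.filter_cons_of_neg]
  simp [ny]

theorem nym (L : List ℕ) : ((0 :: (zz L ++ [0])) : List ℕ).filter ny = zz L := by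
  rw [ny0, List.filter_append, fzz, ny0]
  simp

theorem zm (L : List ℕ) : ∀ c ∈ (0 :: (zz L ++ [0]) : List ℕ), c % 3 ≠ 1 := by
  intro c hc
  simp only [zz, List.mem_cons, List.mem_append, List.mem_map, List.not_mem_nil, or_false] at hc
  rcases hc with rfl | ⟨i, _, rfl⟩ | rfl <;> omega

theorem dbl (hs : SwpStmt) (he : ExfStmt) : DblStmt := by
  intro β hI a b P Q h m hP hh hW
  have e0 : ∀ L, bb (fun i => 0 * a i) (fun i => 0 * b i) P (0 :: (zz L ++ [0])) Q = ww P Q L := by
    intro L
    rw [bb, pA0, pC0, ww]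
    simp
  have h1 : RR β (pl P ++ (zz (List.range m) ++ pr Q)) (pl P ++ (zz h ++ pr Q)) := by
    have h2 := hW.filter ny
    rw [← e0 (List.range m), bb, bb, List.filter_append, List.filter_append, List.filter_append,
      List.filter_append, nym, nym, fpA, fpA, fpC, fpC] at h2
    exact h2
  have h2 := hs β hI P Q h (pA a b P ++ [0]) (0 :: pC a b Q) m hP hh h1
    (fun i hi => List.mem_append_left _ (memA a b P i hi))
    (fun i hi => List.mem_cons_of_mem _ (memC a b Q i hi))
  have h3 : RR β (bb a b P (0 :: (zz (List.range m) ++ [0])) Q)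
      (bb a b P (0 :: (zz h ++ [0])) Q) := by
    simpa [bb] using h2
  have hnd : (P ++ Q).Nodup := hP.nodup_iff.mpr List.nodup_range
  obtain ⟨f, p, q, hf⟩ := he a b P Q hnd
  intro j hj
  induction j with
  | zero => omega
  | succ j ih =>
    rcases Nat.eq_zero_or_pos j with rfl | hj0
    · simpa using hW
    have ih' := ih hj0
    have h4 := (((RR.refl (β := β) p).append ((ih'.sub f).append (RR.refl q))))
    rw [hf j _ (zm h)] at h4
    have h5 := hf 0 (0 :: (zz (List.range m) ++ [0])) (zm _)
    rw [e0] at h5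
    rw [h5] at h4
    have e1 : bb (fun i => (0 + 1) * a i) (fun i => (0 + 1) * b i) P
        (0 :: (zz (List.range m) ++ [0])) Q = bb a b P (0 :: (zz (List.range m) ++ [0])) Q := by
      simp
    rw [e1] at h4
    exact rtr hW (rtr h3.symm h4)

end Pool.Agent.MWI.H76
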